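import Pool.Agent.Q274.HD.Stm2
import Pool.Agent.Q16.BKC.LIN

/-!
# Project HD (helper274), job LNR: independent integral cocycles
-/

set_option autoImplicit false
set_option linter.unusedVariables false

namespace Pool.Agent.Q277.HD.LNR

open NumberField
open Pool.Agent.Q274.HD
open Pool.Agent.Q274.BKC (GK OB Dec Ine)
open scoped Classical Matrix

/-- the coefficients in the field -/
noncomputable def fld (M : Matrix (Fin 2) (Fin 2) ℤ_[2]) : Matrix (Fin 2) (Fin 2) ℚ_[2] :=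
  M.map (PadicInt.Coe.ringHom (p := 2))

lemma act_eq (ρ : Rep) (σ : GQ) (v : V2) : act ρ σ v = fld (ρ σ) *ᵥ v := by
  funext i
  rfl

lemma fld_mul (M N : Matrix (Fin 2) (Fin 2) ℤ_[2]) : fld (M * N) = fld M * fld N :=
  Matrix.map_mul

lemma fld_sub (M N : Matrix (Fin 2) (Fin 2) ℤ_[2]) : fld (M - N) = fld M - fld N :=
  Matrix.map_sub _ (map_sub _) M N

lemma fld_one : fld (1 : Matrix (Fin 2) (Fin 2) ℤ_[2]) = 1 :=
  Matrix.map_one _ (map_zero _) (map_one _)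

lemma act_sub (ρ : Rep) (σ : GQ) (v v' : V2) : act ρ σ (v - v') = act ρ σ v - act ρ σ v' := by
  rw [act_eq, act_eq, act_eq, Matrix.mulVec_sub]

lemma act_mul (ρ : Rep) (σ τ : GQ) (v : V2) : act ρ (σ * τ) v = act ρ σ (act ρ τ v) := by
  rw [act_eq, act_eq, act_eq, map_mul, fld_mul, Matrix.mulVec_mulVec]

lemma continuous_act {ρ : Rep} (h : Continuous ρ) (v : V2) : Continuous fun σ => act ρ σ v := by
  refine continuous_pi fun i => ?_
  unfold act
  refine continuous_finsetSum _ fun j _ => ?_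
  have h1 : Continuous fun σ : GQ => (ρ σ) i j := h.matrix_elem i j
  have h2 : Continuous fun σ : GQ => (((ρ σ) i j : ℤ_[2]) : ℚ_[2]) := continuous_subtype_val.comp h1
  exact h2.mul continuous_const

lemma cob_sel {ρ : Rep} (w : Ideal ZB) (f : T2) (h : Continuous ρ) (y : V2) :
    IsSel ρ w f (fun σ => act ρ σ y - y) := by
  refine ⟨(continuous_act h y).sub continuous_const, fun σ τ => ?_,
    fun Q _ _ => ⟨y, fun σ _ => rfl⟩, ⟨y, fun σ _ => rfl⟩⟩
  rw [act_mul, act_sub]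
  abel

/-- the matrix `ρ σ₀ - 1` is invertible over the field -/
lemma det_ne {M : Matrix (Fin 2) (Fin 2) ℤ_[2]} (h : ∀ i j : Fin 2, (4 : ℤ_[2]) ∣ (M + 1) i j) :
    (M - 1).det ≠ 0 := by
  obtain ⟨a, ha⟩ := h 0 0
  obtain ⟨b, hb⟩ := h 0 1
  obtain ⟨c, hc⟩ := h 1 0
  obtain ⟨d, hd⟩ := h 1 1
  simp only [Matrix.add_apply, Matrix.one_apply_eq] at ha hd
  rw [Matrix.add_apply, Matrix.one_apply_ne (by decide), add_zero] at hb hc
  rw [Matrix.det_fin_two]
  simp only [Matrix.sub_apply, Matrix.one_apply_eq]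
  rw [Matrix.one_apply_ne (by decide : (0 : Fin 2) ≠ 1),
    Matrix.one_apply_ne (by decide : (1 : Fin 2) ≠ 0), sub_zero, sub_zero]
  have e : (M 0 0 - 1) * (M 1 1 - 1) - M 0 1 * M 1 0 =
      4 * (1 - 2 * (a + d - 2 * a * d + 2 * b * c)) := by
    rw [hb, hc]
    have h1 : M 0 0 = 4 * a - 1 := by linear_combination ha
    have h2 : M 1 1 = 4 * d - 1 := by linear_combination hd
    rw [h1, h2]
    ring
  rw [e]
  refine mul_ne_zero (by norm_num) fun h0 => ?_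
  have h1 : IsUnit (2 : ℤ_[2]) := by
    refine IsUnit.of_mul_eq_one (a + d - 2 * a * d + 2 * b * c) ?_
    linear_combination -h0
  have h2 : ¬ IsUnit (2 : ℤ_[2]) := by
    have := (PadicInt.prime_p (p := 2)).not_isUnit
    exact_mod_cast this
  exact h2 h1

/-- the Selmer cocycles that vanish at `σ₀` -/
noncomputable def Sel0 (ρ : Rep) (w : Ideal ZB) (f : T2) (σ₀ : GQ) :
    Submodule ℚ_[2] (GQ → V2) :=
  Sel ρ w f ⊓ LinearMap.ker (LinearMap.proj (R := ℚ_[2]) (φ := fun _ : GQ => V2) σ₀)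

lemma mem_Sel0 {ρ : Rep} {w : Ideal ZB} {f : T2} {σ₀ : GQ} {c : GQ → V2} :
    c ∈ Sel0 ρ w f σ₀ ↔ IsSel ρ w f c ∧ c σ₀ = 0 := Iff.rfl

lemma rank_le (ρ : Rep) (w : Ideal ZB) (f : T2) (h : Continuous ρ) (σ₀ : GQ)
    (h4 : ∀ i j : Fin 2, (4 : ℤ_[2]) ∣ (ρ σ₀ + 1) i j) :
    Module.rank ℚ_[2] (H1f ρ w f) ≤ Module.rank ℚ_[2] (Sel0 ρ w f σ₀) := by
  let F : Sel0 ρ w f σ₀ →ₗ[ℚ_[2]] H1f ρ w f :=
    ((B1 ρ).comap (Sel ρ w f).subtype).mkQ.comp
      (Submodule.inclusion (inf_le_left : Sel0 ρ w f σ₀ ≤ Sel ρ w f))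
  refine LinearMap.rank_le_of_surjective F ?_
  intro z
  obtain ⟨c, rfl⟩ := ((B1 ρ).comap (Sel ρ w f).subtype).mkQ_surjective z
  have hdet : IsUnit (fld (ρ σ₀ - 1)).det := by
    rw [isUnit_iff_ne_zero]
    unfold fld
    have e : ((ρ σ₀ - 1).map (PadicInt.Coe.ringHom (p := 2))).det =
        PadicInt.Coe.ringHom (p := 2) (ρ σ₀ - 1).det := by
      rw [RingHom.map_det]
      rfl
    rw [e]
    intro h0
    refine det_ne h4 ?_
    exact Subtype.ext h0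
  set y : V2 := (fld (ρ σ₀ - 1))⁻¹ *ᵥ (c.1 σ₀) with hy
  have hys : act ρ σ₀ y - y = c.1 σ₀ := by
    rw [act_eq]
    have : fld (ρ σ₀) *ᵥ y - y = fld (ρ σ₀ - 1) *ᵥ y := by
      rw [fld_sub, fld_one, Matrix.sub_mulVec, Matrix.one_mulVec]
    rw [this, hy, Matrix.mulVec_mulVec, Matrix.mul_nonsing_inv _ hdet, Matrix.one_mulVec]
  have hb : (fun σ => act ρ σ y - y) ∈ Sel ρ w f := cob_sel w f h y
  have hc' : c.1 - (fun σ => act ρ σ y - y) ∈ Sel ρ w f := (Sel ρ w f).sub_mem c.2 hb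
  have h2 : c.1 - (fun σ => act ρ σ y - y) ∈ Sel0 ρ w f σ₀ := by
    refine mem_Sel0.2 ⟨hc', ?_⟩
    rw [Pi.sub_apply, hys, sub_self]
  refine ⟨⟨_, h2⟩, ?_⟩
  show ((B1 ρ).comap (Sel ρ w f).subtype).mkQ ⟨_, hc'⟩ = ((B1 ρ).comap (Sel ρ w f).subtype).mkQ c
  rw [Submodule.mkQ_apply, Submodule.mkQ_apply, Submodule.Quotient.eq]
  show (c.1 - (fun σ => act ρ σ y - y)) - c.1 ∈ B1 ρ
  refine ⟨-y, fun σ => ?_⟩
  simp only [Pi.sub_apply]
  have : act ρ σ (-y) = - act ρ σ y := by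
    rw [act_eq, act_eq, Matrix.mulVec_neg]
  rw [this]
  abel

/-- a function with values in the space as a function on the product -/
def Phi : (GQ → V2) →ₗ[ℚ_[2]] (GQ × Fin 2 → ℚ_[2]) where
  toFun c := fun p => c p.1 p.2
  map_add' _ _ := rfl
  map_smul' _ _ := rfl

lemma Phi_inj : Function.Injective Phi := by
  intro a b h
  funext σ k
  exact congrFun h (σ, k)

theorem t_LNR : Pool.Agent.Q274.HD.S_LNR := by
  intro ρ w f σ₀ r hρ h4 hr
  have hr' : (r : Cardinal) ≤ Module.rank ℚ_[2] ((Sel0 ρ w f σ₀).map Phi) := by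
    rw [← LinearEquiv.rank_eq (Submodule.equivMapOfInjective Phi Phi_inj (Sel0 ρ w f σ₀))]
    exact hr.trans (rank_le ρ w f hρ σ₀ h4)
  obtain ⟨c, τ, hc, hcτ, hcn⟩ := Pool.Agent.Q16.BKC.t_LIN (GQ × Fin 2)
    ((Sel0 ρ w f σ₀).map Phi) (by
      rintro _ ⟨c, hc, rfl⟩
      rw [continuous_prod_of_discrete_right]
      intro k
      have h1 : Continuous c := hc.1.cont
      exact (continuous_apply k).comp h1) r hr'
  choose d hd hdc using hc
  have hn : ∀ i σ k, ‖d i σ k‖ ≤ 1 := by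
    intro i σ k
    have := hcn i (σ, k)
    rw [← hdc i] at this
    exact this
  have hV : ∀ i, (fun σ => toV (fun k => (⟨d i σ k, hn i σ k⟩ : ℤ_[2]))) = d i := by
    intro i
    rfl
  refine ⟨fun i σ k => ⟨d i σ k, hn i σ k⟩, fun j => (τ j).1, fun j => (τ j).2, fun i => ?_,
    fun i => ?_, fun i j => ?_⟩
  · exact (hd i).1
  · funext k
    apply Subtype.ext
    have h1 : d i σ₀ = 0 := (hd i).2
    show d i σ₀ k = 0
    rw [h1]
    rfl
  · apply Subtype.ext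
    have h1 := hcτ i j
    rw [← hdc i] at h1
    have h2 : d i (τ j).1 (τ j).2 = if i = j then 1 else 0 := h1
    show d i (τ j).1 (τ j).2 = _
    rw [h2]
    split_ifs <;> simp

end Pool.Agent.Q277.HD.LNR
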