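import Pool.Agent.Q274.HD.Stm2
import Pool.Agent.Q95.BKC.RAM

/-!
# Project HD (helper274), job SIG: an element which acts by `-1` modulo `4`
-/

set_option autoImplicit false
set_option linter.unusedVariables false

namespace Pool.Agent.Q277.HD.SIG

open NumberField IsDedekindDomain
open Pool.Agent.Q274.HD
open Pool.Agent.Q274.BKC (GK OB Dec Ine)
open scoped Matrix

/-- a prime number is prime in the ring of integers of the rational numbers -/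
lemma prime_q {q : ℕ} (hq : q.Prime) : Prime (q : 𝓞 ℚ) := by
  have h := (MulEquiv.prime_iff (Rat.ringOfIntegersEquiv : 𝓞 ℚ ≃* ℤ) (p := (q : 𝓞 ℚ))).1
  rw [← MulEquiv.prime_iff (Rat.ringOfIntegersEquiv : 𝓞 ℚ ≃* ℤ)]
  have e : (Rat.ringOfIntegersEquiv : 𝓞 ℚ ≃* ℤ) (q : 𝓞 ℚ) = (q : ℤ) :=
    map_natCast Rat.ringOfIntegersEquiv q
  rw [e]
  exact Nat.prime_iff_prime_int.1 hq

/-- the prime of a prime number -/
noncomputable def pl {q : ℕ} (hq : q.Prime) : HeightOneSpectrum (𝓞 ℚ) where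
  asIdeal := Ideal.span {(q : 𝓞 ℚ)}
  isPrime := (Ideal.span_singleton_prime (prime_q hq).ne_zero).2 (prime_q hq)
  ne_bot := by
    rw [Ne, Ideal.span_singleton_eq_bot]
    exact (prime_q hq).ne_zero

lemma exists_Q {q : ℕ} (hq : q.Prime) : ∃ Q : Ideal (OB ℚ), Q.IsMaximal ∧
    Q.comap (algebraMap (𝓞 ℚ) (OB ℚ)) = (pl hq).asIdeal := by
  have : (pl hq).asIdeal.IsMaximal := (pl hq).isMaximal
  obtain ⟨Q, hQ1, hQ2⟩ := Ideal.exists_ideal_over_maximal_of_isIntegral (S := OB ℚ)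
    (pl hq).asIdeal (by
      rw [(RingHom.injective_iff_ker_eq_bot _).1 (FaithfulSMul.algebraMap_injective (𝓞 ℚ) (OB ℚ))]
      exact bot_le)
  exact ⟨Q, hQ1, hQ2⟩

/-- no square times `q` is a unit at `q` -/
lemma odd_val {q : ℕ} (hq : q.Prime) (a : ℚ) (ha : a ≠ 0) :
    (pl hq).valuation ℚ ((q : ℚ) * a ^ 2) ≠ 1 := by
  intro h
  have h1 : (pl hq).valuation ℚ (q : ℚ) = WithZero.exp (-1 : ℤ) := by
    have e : (q : ℚ) = algebraMap (𝓞 ℚ) ℚ (q : 𝓞 ℚ) := by simp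
    rw [e, HeightOneSpectrum.valuation_of_algebraMap]
    exact (pl hq).intValuation_singleton (prime_q hq).ne_zero rfl
  rw [map_mul, map_pow, h1] at h
  have ha' : (pl hq).valuation ℚ a ≠ 0 := (Valuation.ne_zero_iff _).2 ha
  obtain ⟨n, hn⟩ : ∃ n : ℤ, (pl hq).valuation ℚ a = WithZero.exp n := ⟨WithZero.log _, by
    rw [WithZero.exp_log ha']⟩
  rw [hn, ← WithZero.exp_nsmul, ← WithZero.exp_add, ← WithZero.exp_zero] at h
  have h2 := WithZero.exp_injective h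
  simp only [nsmul_eq_mul] at h2
  omega

/-- the integers in `Q` -/
lemma int_mem {q : ℕ} (hq : q.Prime) {Q : Ideal (OB ℚ)}
    (hQ : Q.comap (algebraMap (𝓞 ℚ) (OB ℚ)) = (pl hq).asIdeal) (z : ℤ) (h : (z : OB ℚ) ∈ Q) :
    (q : ℤ) ∣ z := by
  have h1 : ((z : ℤ) : 𝓞 ℚ) ∈ (pl hq).asIdeal := by
    rw [← hQ, Ideal.mem_comap, map_intCast]
    exact h
  have h2 : (q : 𝓞 ℚ) ∣ (z : 𝓞 ℚ) := Ideal.mem_span_singleton.1 h1
  have h3 := map_dvd Rat.ringOfIntegersEquiv h2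
  rwa [map_natCast, map_intCast] at h3

/-- the Galois part -/
lemma gal_sig (b : Fin 3 → ℤ) (hT : Twisted b) : ∃ σ : GQ, ∀ i j : Fin 3, i ≠ j →
    ∀ y : QB, y ^ 2 = ((b i - b j : ℤ) : QB) → σ y ≠ y := by
  obtain ⟨q, hq, hq2, c, hc, hqc⟩ := hT
  obtain ⟨Q, hQ1, hQ2⟩ := exists_Q hq
  obtain ⟨σ, hσ, hσq⟩ := Pool.Agent.Q95.BKC.t_RAM ℚ (q : ℚ) (pl hq) Q
    (by exact_mod_cast hq.ne_zero) (odd_val hq) hQ1 hQ2
  refine ⟨σ, fun i j hij y hy => ?_⟩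
  -- the differences of the `c i` are units
  have hcij : ¬ (q : ℤ) ∣ c i - c j := by
    intro h
    refine hqc (h.trans ?_)
    unfold dd
    fin_cases i <;> fin_cases j <;>
      first
      | exact absurd rfl hij
      | exact ⟨(c 0 - c 2) * (c 1 - c 2), by simp; ring1⟩
      | exact ⟨-((c 0 - c 2) * (c 1 - c 2)), by simp; ring1⟩
      | exact ⟨(c 0 - c 1) * (c 1 - c 2), by simp; ring1⟩
      | exact ⟨-((c 0 - c 1) * (c 1 - c 2)), by simp; ring1⟩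
      | exact ⟨(c 0 - c 1) * (c 0 - c 2), by simp; ring1⟩
      | exact ⟨-((c 0 - c 1) * (c 0 - c 2)), by simp; ring1⟩
  have hc0 : c i - c j ≠ 0 := by
    intro h
    rw [h] at hcij
    exact hcij (dvd_zero _)
  obtain ⟨r, hr⟩ : ∃ r : QB, r ^ 2 = algebraMap ℚ QB (q : ℚ) :=
    IsAlgClosed.exists_pow_nat_eq _ two_pos
  obtain ⟨s, hs⟩ : ∃ s : QB, s ^ 2 = ((c i - c j : ℤ) : QB) :=
    IsAlgClosed.exists_pow_nat_eq _ two_pos
  have hσr : σ r = -r := hσq r hr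
  have hs0 : s ≠ 0 := by
    rintro rfl
    rw [zero_pow two_ne_zero] at hs
    exact hc0 (by exact_mod_cast hs.symm)
  have hr0 : r ≠ 0 := by
    rintro rfl
    rw [zero_pow two_ne_zero] at hr
    have : (q : ℚ) = 0 := (map_eq_zero _).1 hr.symm
    exact hq.ne_zero (by exact_mod_cast this)
  -- `σ` fixes `s`
  have hσs : σ s = s := by
    have h1 : σ s = s ∨ σ s = -s := by
      apply sq_eq_sq_iff_eq_or_eq_neg.1
      rw [← map_pow, hs, map_intCast]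
    rcases h1 with h1 | h1
    · exact h1
    exfalso
    have hint : IsIntegral ℤ s := by
      refine IsIntegral.of_pow two_pos ?_
      rw [hs]
      exact isIntegral_algebraMap (R := ℤ) (A := QB) (x := c i - c j)
    let S : OB ℚ := ⟨s, hint⟩
    have h2 : σ • S - S ∈ Q := hσ S
    have h3 : σ • S - S = -(2 * S) := by
      apply RingOfIntegers.ext
      show σ s - s = -(2 * s)
      rw [h1]
      ring
    rw [h3] at h2
    have h4 : (2 * S) ∈ Q := by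
      have := Q.neg_mem h2
      rwa [neg_neg] at this
    have h5 : ((4 * (c i - c j) : ℤ) : OB ℚ) ∈ Q := by
      have h6 := Q.mul_mem_left (2 * S) h4
      have h7 : (2 * S) * (2 * S) = ((4 * (c i - c j) : ℤ) : OB ℚ) := by
        apply RingOfIntegers.ext
        show (2 * s) * (2 * s) = (((4 * (c i - c j) : ℤ) : OB ℚ) : QB)
        have h8 : (((4 * (c i - c j) : ℤ) : OB ℚ) : QB) = ((4 * (c i - c j) : ℤ) : QB) := by
          exact map_intCast (algebraMap (OB ℚ) QB) _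
        rw [h8]
        push_cast
        push_cast at hs
        linear_combination 4 * hs
      rwa [h7] at h6
    have h6 := int_mem hq hQ2 _ h5
    have hp : Prime (q : ℤ) := Nat.prime_iff_prime_int.1 hq
    rcases hp.dvd_or_dvd h6 with h | h
    · have h7 : (q : ℤ) ∣ 2 ^ 2 := by
        have : (4 : ℤ) = 2 ^ 2 := by norm_num
        rwa [this] at h
      have h8 := hp.dvd_of_dvd_pow h7
      have h9 : q ∣ 2 := by exact_mod_cast h8
      exact hq2 ((Nat.prime_dvd_prime_iff_eq hq Nat.prime_two).1 h9)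
    · exact hcij h
  have hy' : y = r * s ∨ y = -(r * s) := by
    apply sq_eq_sq_iff_eq_or_eq_neg.1
    rw [hy, mul_pow, hr, hs, hc i, hc j, map_natCast]
    push_cast
    ring
  have hrs : r * s ≠ 0 := mul_ne_zero hr0 hs0
  have e : σ (r * s) = -(r * s) := by
    rw [map_mul, hσr, hσs]
    ring
  intro h
  rcases hy' with rfl | rfl
  · rw [e] at h
    exact hrs (self_eq_neg.1 h.symm)
  · rw [map_neg, e, neg_neg] at h
    exact hrs (self_eq_neg.1 h)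

set_option synthInstance.maxSize 2048 in
set_option synthInstance.maxHeartbeats 400000 in
/-- the linear algebra modulo `2` -/
lemma lin0 : ∀ (a0 a1 b0 b1 c0 c1 t0 t1 u0 u1 : ZMod 2), (a0 ≠ 0 ∨ a1 ≠ 0) → (b0 ≠ 0 ∨ b1 ≠ 0) →
    (c0 ≠ 0 ∨ c1 ≠ 0) → (a0 ≠ b0 ∨ a1 ≠ b1) → (a0 ≠ c0 ∨ a1 ≠ c1) → (b0 ≠ c0 ∨ b1 ≠ c1) →
    (t0 ≠ 0 ∨ t1 ≠ 0) →
    (a0 * t0 + a1 * t1 = 0 ∧ (b0 * u0 + b1 * u1 ≠ 0 ∧ c0 * u0 + c1 * u1 ≠ 0 → u0 = t0 ∧ u1 = t1)) ∨
    (b0 * t0 + b1 * t1 = 0 ∧ (a0 * u0 + a1 * u1 ≠ 0 ∧ c0 * u0 + c1 * u1 ≠ 0 → u0 = t0 ∧ u1 = t1)) ∨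
    (c0 * t0 + c1 * t1 = 0 ∧ (a0 * u0 + a1 * u1 ≠ 0 ∧ b0 * u0 + b1 * u1 ≠ 0 → u0 = t0 ∧ u1 = t1)) := by
  decide +kernel

lemma ne2 {f g : Fin 2 → ZMod 2} (h : f ≠ g) : f 0 ≠ g 0 ∨ f 1 ≠ g 1 := by
  by_contra hc
  push Not at hc
  refine h (funext fun i => ?_)
  fin_cases i
  · exact hc.1
  · exact hc.2

lemma lin' (L : Fin 3 → Fin 2 → ZMod 2) (h : ∀ j, L j ≠ 0) (hi : Function.Injective L)
    (t u : Fin 2 → ZMod 2) (ht : t ≠ 0) : ∃ i : Fin 3, (∑ k, L i k * t k = 0) ∧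
      ((∀ j, i ≠ j → ∑ k, L j k * u k ≠ 0) → u = t) := by
  have key := lin0 (L 0 0) (L 0 1) (L 1 0) (L 1 1) (L 2 0) (L 2 1) (t 0) (t 1) (u 0) (u 1)
    (ne2 (h 0)) (ne2 (h 1)) (ne2 (h 2)) (ne2 (hi.ne (by decide))) (ne2 (hi.ne (by decide)))
    (ne2 (hi.ne (by decide))) (ne2 ht)
  have ext : u 0 = t 0 ∧ u 1 = t 1 → u = t := by
    rintro ⟨h1, h2⟩
    funext i
    fin_cases i
    · exact h1
    · exact h2
  simp only [Fin.sum_univ_two]
  rcases key with ⟨h1, h2⟩ | ⟨h1, h2⟩ | ⟨h1, h2⟩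
  · exact ⟨0, h1, fun hj => ext (h2 ⟨hj 1 (by decide), hj 2 (by decide)⟩)⟩
  · exact ⟨1, h1, fun hj => ext (h2 ⟨hj 0 (by decide), hj 2 (by decide)⟩)⟩
  · exact ⟨2, h1, fun hj => ext (h2 ⟨hj 0 (by decide), hj 1 (by decide)⟩)⟩

lemma toZ {x y : ℤ_[2]} (h : PadicInt.toZMod (p := 2) x = PadicInt.toZMod (p := 2) y) :
    (2 : ℤ_[2]) ∣ x - y := by
  have h1 : x - y ∈ RingHom.ker (PadicInt.toZMod (p := 2)) := by
    rw [RingHom.mem_ker, map_sub, h, sub_self]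
  rw [PadicInt.ker_toZMod, PadicInt.maximalIdeal_eq_span_p, Ideal.mem_span_singleton] at h1
  exact_mod_cast h1

theorem t_SIG : Pool.Agent.Q274.HD.S_SIG := by
  intro b ρ L hb hT hD
  obtain ⟨σ, hσ⟩ := gal_sig b hT
  refine ⟨σ, fun n m => ?_⟩
  -- the basis vector
  set t : T2 := Pi.single m 1 with ht
  obtain ⟨u, hu⟩ := hD.two σ t
  have h2 : ¬ (2 : ℤ_[2]) ∣ t m := by
    rw [ht, Pi.single_eq_same]
    intro h
    have h3 : IsUnit (2 : ℤ_[2]) := isUnit_of_dvd_one h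
    have h4 : ¬ IsUnit (2 : ℤ_[2]) := by
      have := (PadicInt.prime_p (p := 2)).not_isUnit
      exact_mod_cast this
    exact h4 h3
  have ht' : (fun k => PadicInt.toZMod (p := 2) (t k)) ≠ 0 := by
    intro h
    have := congrFun h m
    simp [ht] at this
  obtain ⟨i, hi1, hi2⟩ := lin' L hD.ne hD.inj _ (fun k => PadicInt.toZMod (p := 2) (u k)) ht'
  have h5 := hi2 (by
    intro j hij h6
    obtain ⟨y, hy⟩ : ∃ y : QB, y ^ 2 = ((b i - b j : ℤ) : QB) :=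
      IsAlgClosed.exists_pow_nat_eq _ two_pos
    exact hσ i j hij y hy ((hD.kum i j hij t u σ ⟨m, h2⟩ hi1 hu y hy).2 h6))
  have h6 : (2 : ℤ_[2]) ∣ u n - t n := toZ (congrFun h5 n)
  obtain ⟨v, hv⟩ := h6
  have h7 := congrFun hu n
  have h8 : (ρ σ *ᵥ t) n = ρ σ n m := by
    rw [ht, Matrix.mulVec_single_one]
    rfl
  rw [h8, Pi.add_apply, Pi.smul_apply, smul_eq_mul] at h7
  have h9 : (1 : Matrix (Fin 2) (Fin 2) ℤ_[2]) n m = t n := by
    rw [ht, Matrix.one_apply, Pi.single_apply]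
  refine ⟨v + t n, ?_⟩
  rw [Matrix.add_apply, h7, h9]
  linear_combination 2 * hv

end Pool.Agent.Q277.HD.SIG
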