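import Pool.Agent.Q274.HD.Stm2

/-!
# Project HD (helper274), job TWC: the classes of the twists
-/

set_option autoImplicit false
set_option linter.unusedVariables false

namespace Pool.Agent.Q277.HD.TWC

open Pool.Agent.Q274.HD

/-- an integer divisible exactly once by `l` is not a square -/
lemma not_sq {l : ℕ} [hl : Fact l.Prime] {z : ℤ} (h1 : (l : ℤ) ∣ z) (h2 : ¬ (l : ℤ) ^ 2 ∣ z) :
    ¬ IsSquare ((z : ℤ) : ℚ_[l]) := by
  rintro ⟨x, hx⟩
  have hz0 : z ≠ 0 := by
    rintro rfl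
    exact h2 (dvd_zero _)
  have hx0 : x ≠ 0 := by
    rintro rfl
    rw [mul_zero] at hx
    exact hz0 (by exact_mod_cast hx)
  have h3 : Padic.valuation ((z : ℤ) : ℚ_[l]) = x.valuation + x.valuation := by
    rw [hx, Padic.valuation_mul hx0 hx0]
  rw [Padic.valuation_intCast] at h3
  have h4 : 1 ≤ padicValInt l z := by
    have := (padicValInt_dvd_iff (p := l) 1 z).1 (by rwa [pow_one])
    exact this.resolve_left hz0
  have h5 : ¬ 2 ≤ padicValInt l z := by
    intro h
    exact h2 ((padicValInt_dvd_iff (p := l) 2 z).2 (Or.inr h))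
  omega

/-- change of the twist -/
lemma sq_tw {l : ℕ} [Fact l.Prime] {D₀ D' : ℤ} (h0 : D₀ ≠ 0)
    (h : IsSquare ((D' * D₀ : ℤ) : ℚ_[l])) {x y : ℤ} (hy : x * D₀ = y * D')
    (hs : IsSquare ((x : ℤ) : ℚ_[l])) : IsSquare ((y : ℤ) : ℚ_[l]) ∨ D' = 0 := by
  by_cases hD : D' = 0
  · exact Or.inr hD
  left
  obtain ⟨u, hu⟩ := h
  obtain ⟨v, hv⟩ := hs
  have hD' : ((D' : ℤ) : ℚ_[l]) ≠ 0 := by exact_mod_cast hD
  have hyy : ((x : ℤ) : ℚ_[l]) * D₀ = y * D' := by exact_mod_cast hy
  push_cast at hu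
  refine ⟨v * u / D', ?_⟩
  field_simp
  linear_combination (-(D' : ℚ_[l])) * hyy + ((D' : ℚ_[l]) * D₀) * hv + v * v * hu

lemma dd_mul (D : ℤ) (a : Fin 3 → ℤ) : dd (fun i => D * a i) = D ^ 3 * dd a := by
  unfold dd
  ring

theorem t_TWC : Pool.Agent.Q274.HD.S_TWC := by
  intro a D₀ D' S q ha hD0 hsq h2S hS h2 hodd hq hqD hqa
  have hD'0 : D' ≠ 0 := hsq.ne_zero
  have key : ∀ (l : ℕ) [Fact l.Prime], l ∈ S → ∀ x y : ℤ, x * D₀ = y * D' →
      IsSquare ((x : ℤ) : ℚ_[l]) → IsSquare ((y : ℤ) : ℚ_[l]) := by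
    intro l _ hl x y hxy hx
    exact (sq_tw hD0 (hS l hl) hxy hx).resolve_right hD'0
  have key' : ∀ (l : ℕ) [Fact l.Prime], l ∈ S → ∀ x y : ℤ, x * D' = y * D₀ →
      IsSquare ((x : ℤ) : ℚ_[l]) → IsSquare ((y : ℤ) : ℚ_[l]) := by
    intro l _ hl x y hxy hx
    refine (sq_tw hD'0 ?_ hxy hx).resolve_right hD0
    rw [mul_comm]
    exact hS l hl
  have hndvd : ∀ l : ℕ, l.Prime → (l : ℤ) ∣ D' → ∃ m : ℤ, D' = l * m ∧ ¬ (l : ℤ) ∣ m := by
    rintro l hl ⟨m, hm⟩
    refine ⟨m, hm, ?_⟩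
    rintro ⟨n, rfl⟩
    have h := hsq (l : ℤ) ⟨n, by rw [hm]; ring⟩
    exact (Nat.prime_iff_prime_int.1 hl).not_isUnit h
  refine ⟨?_, ?_, ?_⟩
  · -- at `2`
    obtain ⟨m, hm⟩ := h2
    refine ⟨m, fun i j hi hj hij => ?_⟩
    obtain ⟨h3, h4⟩ := hm i j hi hj hij
    refine ⟨fun h => h3 (key 2 h2S _ _ ?_ h), ?_⟩
    · ring
    · have e1 : ((D₀ * a i - D₀ * a j : ℤ) : ℚ_[2]) = (D₀ : ℚ_[2]) * (a i - a j) := by
        push_cast; ring
      have e2 : ((16 * (D₀ * a i - D₀ * a m) : ℤ) : ℚ_[2]) = (D₀ : ℚ_[2]) * (16 * (a i - a m)) := by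
        push_cast; ring
      have e3 : ((D' * a i - D' * a j : ℤ) : ℚ_[2]) = (D' : ℚ_[2]) * (a i - a j) := by
        push_cast; ring
      have e4 : ((16 * (D' * a i - D' * a m) : ℤ) : ℚ_[2]) = (D' : ℚ_[2]) * (16 * (a i - a m)) := by
        push_cast; ring
      have h4' : ‖((D₀ * a i - D₀ * a j : ℤ) : ℚ_[2])‖ ≤
        ‖((16 * (D₀ * a i - D₀ * a m) : ℤ) : ℚ_[2])‖ := h4
      show ‖((D' * a i - D' * a j : ℤ) : ℚ_[2])‖ ≤ ‖((16 * (D' * a i - D' * a m) : ℤ) : ℚ_[2])‖
      rw [e1, e2, norm_mul, norm_mul] at h4'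
      rw [e3, e4, norm_mul, norm_mul]
      have hpos : 0 < ‖(D₀ : ℚ_[2])‖ := norm_pos_iff.2 (by exact_mod_cast hD0)
      exact mul_le_mul_of_nonneg_left (le_of_mul_le_mul_left h4' hpos) (norm_nonneg _)
  · -- at the odd primes
    intro l hl hl2
    rcases hodd l hl2 with h3 | ⟨hlS, h3⟩
    · by_cases hlD : (l : ℤ) ∣ D'
      · right
        obtain ⟨m, hm, hlm⟩ := hndvd l hl.out hlD
        have hp : Prime (l : ℤ) := Nat.prime_iff_prime_int.1 hl.out
        have hns : ∀ i j : Fin 3, ¬ (l : ℤ) ∣ a i - a j →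
            ¬ IsSquare ((D' * a i - D' * a j : ℤ) : ℚ_[l]) := by
          intro i j hij
          refine not_sq ⟨m * (a i - a j), by rw [hm]; ring⟩ ?_
          rintro ⟨n, hn⟩
          have hl0 : (l : ℤ) ≠ 0 := hp.ne_zero
          have : m * (a i - a j) = l * n := by
            apply mul_left_cancel₀ hl0
            rw [hm] at hn
            linear_combination hn
          rcases hp.dvd_or_dvd ⟨n, this⟩ with h | h
          · exact hlm h
          · exact hij h
        rintro i j k hij hik hjk ⟨h4, h5⟩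
        have h6 : (l : ℤ) ∣ a i - a j := by
          by_contra h
          exact hns i j h h4
        have h7 : (l : ℤ) ∣ a i - a k := by
          by_contra h
          exact hns i k h h5
        refine h3 ?_
        have h8 : (l : ℤ) ^ 2 ∣ (a i - a j) * (a i - a k) := by
          rw [pow_two]
          exact mul_dvd_mul h6 h7
        refine h8.trans ?_
        have hc : ∀ i j k : Fin 3, i ≠ j → i ≠ k → j ≠ k →
            dd a = (a i - a j) * (a i - a k) * (a j - a k) ∨
            dd a = -((a i - a j) * (a i - a k) * (a j - a k)) := by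
          intro i j k h1 h2 h3
          unfold dd
          fin_cases i <;> fin_cases j <;> fin_cases k <;>
            first
            | exact absurd rfl h1
            | exact absurd rfl h2
            | exact absurd rfl h3
            | (left; simp; done)
            | (left; simp; ring1)
            | (right; simp; ring1)
        rcases hc i j k hij hik hjk with h | h
        · rw [h]
          exact Dvd.intro _ rfl
        · rw [h, ← mul_neg]
          exact Dvd.intro _ rfl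
      · left
        rw [dd_mul]
        intro h4
        refine h3 ?_
        have hp : Prime (l : ℤ) := Nat.prime_iff_prime_int.1 hl.out
        have hco : IsCoprime ((l : ℤ) ^ 2) (D' ^ 3) :=
          IsCoprime.pow ((hp.coprime_iff_not_dvd).2 hlD)
        exact hco.dvd_of_dvd_mul_left h4
    · right
      rintro i j k hij hik hjk ⟨h4, h5⟩
      refine h3 i j k hij hik hjk ⟨key l hlS _ _ ?_ h4, key l hlS _ _ ?_ h5⟩
      · ring
      · ring
  · obtain ⟨m, hm, hqm⟩ := hndvd q hq hqD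
    have hp : Prime (q : ℤ) := Nat.prime_iff_prime_int.1 hq
    refine ⟨q, hq, ?_, fun i => m * a i, fun i => ?_, ?_⟩
    · rintro rfl
      exact hqa ⟨dd a, by push_cast; ring⟩
    · simp only [hm]
      ring
    · rw [dd_mul]
      intro h
      rcases hp.dvd_or_dvd h with h | h
      · exact hqm (hp.dvd_of_dvd_pow h)
      · exact hqa (h.mul_left 2)

end Pool.Agent.Q277.HD.TWC
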